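import Mathlib
import Pool.Agent.T9h47.ST.Defs

/-!
# How much a circuit breaks the symmetry of the points: definitions
-/

set_option autoImplicit false

namespace Pool.Agent.T9h47.SZ

open Pool.Agent.T9h47.SC Pool.Agent.T9h47.ST

/-- the families of at most `k n` subsets of `[n]` with at most `k` points -/
def Fam (n k : ℕ) : Type := {F : Set (Finset (Fin n)) // F.ncard ≤ k * n ∧ ∀ S ∈ F, S.card ≤ k}

/-- What the gate `g` sees on the input `x`: its own value and, for each role `r`, the multiset of
the values of its children in the role `r`. -/
noncomputable def view {K I : Type} (C : Circuit K I) (g : C.Gate) (x : I → K) :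
    K × (ℕ → Multiset K) :=
  (C.val x g, fun r => ((C.kids g).filter (fun p => p.1 = r)).val.map (fun p => C.val x p.2))

/-- The views of the gates of `C` after renaming the points in `H`: all functions
`F ↦ view g (σ F)` on the families `F` of at most `k n` sets with at most `k` points, where `g` is
a gate and `σ` is a permutation of `[n]` which fixes all points outside `H`. -/
def views {K : Type} {n : ℕ} (k : ℕ) (H : Finset (Fin n)) (C : Circuit K (Finset (Fin n)))
    (b₀ b₁ : K) : Set (Fam n k → K × (ℕ → Multiset K)) :=
  {L | ∃ g, ∃ σ : Equiv.Perm (Fin n), (∀ u, u ∉ H → σ u = u) ∧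
    L = fun F => view C g (inpF b₀ b₁ (im σ '' F.1))}

end Pool.Agent.T9h47.SZ
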