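import Mathlib
import Pool.Agent.T9h47.ST.Gates
import Pool.Agent.T9h47.SY.Gen
import Pool.Agent.T9h47.SZ.Defs

/-!
# The stabilisers of views under renaming points
-/

set_option autoImplicit false
set_option linter.unusedSectionVars false

namespace Pool.Agent.T9h47.SZ

open Finset
open Pool.Agent.T9h47.SC Pool.Agent.T9h47.SE Pool.Agent.T9h49.SD Pool.Agent.T9h47.ST
open Pool.Agent.T9h47.SY

section act

variable {n k : ℕ}

theorem im_inj (σ : Equiv.Perm (Fin n)) : Function.Injective (im σ) := by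
  intro S S' h
  exact image_injective σ.injective h

/-- the action on the families -/
def act (σ : Equiv.Perm (Fin n)) (F : Fam n k) : Fam n k :=
  ⟨im σ '' F.1, by
    rw [Set.ncard_image_of_injective _ (im_inj σ)]
    exact F.2.1, by
    rintro _ ⟨S, hS, rfl⟩
    show (S.image σ).card ≤ k
    rw [card_image_of_injective _ σ.injective]
    exact F.2.2 S hS⟩

theorem act_mul (σ τ : Equiv.Perm (Fin n)) :
    (act (σ * τ) : Fam n k → Fam n k) = act σ ∘ act τ := by
  funext F
  refine Subtype.ext ?_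
  show im (σ * τ) '' F.1 = im σ '' (im τ '' F.1)
  rw [im_mul, Set.image_comp]

theorem act_one : (act (1 : Equiv.Perm (Fin n)) : Fam n k → Fam n k) = id := by
  funext F
  refine Subtype.ext ?_
  show im 1 '' F.1 = F.1
  rw [im_one, Set.image_id]

theorem act_inv (σ : Equiv.Perm (Fin n)) :
    (act σ : Fam n k → Fam n k) ∘ act σ⁻¹ = id := by
  rw [← act_mul, mul_inv_cancel, act_one]

end act

section index

variable {n k : ℕ} {T : Type} (H : Finset (Fin n)) (L : Fam n k → T)

/-- the permutations of `H` which do not change a function -/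
def Hv : Subgroup (Equiv.Perm {u // u ∈ H}) where
  carrier := {σ | L ∘ act (Equiv.Perm.ofSubtype σ) = L}
  one_mem' := by
    show L ∘ act (Equiv.Perm.ofSubtype (1 : Equiv.Perm {u // u ∈ H})) = L
    rw [map_one, act_one, Function.comp_id]
  mul_mem' := by
    intro σ τ h1 h2
    show L ∘ act (Equiv.Perm.ofSubtype (σ * τ)) = L
    have h1' : L ∘ act (Equiv.Perm.ofSubtype σ) = L := h1
    have h2' : L ∘ act (Equiv.Perm.ofSubtype τ) = L := h2
    rw [map_mul, act_mul, ← Function.comp_assoc, h1', h2']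
  inv_mem' := by
    intro σ h1
    have h1' : L ∘ act (Equiv.Perm.ofSubtype σ) = L := h1
    show L ∘ act (Equiv.Perm.ofSubtype σ⁻¹) = L
    have h2 : L ∘ act (Equiv.Perm.ofSubtype σ) ∘ act (Equiv.Perm.ofSubtype σ)⁻¹ =
        L ∘ act (Equiv.Perm.ofSubtype σ⁻¹) := by
      rw [← Function.comp_assoc, h1', map_inv]
    rw [← h2, act_inv, Function.comp_id]

theorem mem_Hv {σ : Equiv.Perm {u // u ∈ H}} :
    σ ∈ Hv H L ↔ L ∘ act (Equiv.Perm.ofSubtype σ) = L := Iff.rfl

theorem Hv_index (F : Set (Fam n k → T)) (hfin : F.Finite)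
    (hF : ∀ σ : Equiv.Perm {u // u ∈ H}, L ∘ act (Equiv.Perm.ofSubtype σ) ∈ F) :
    (Hv H L).index ≤ F.ncard := by
  classical
  rw [← Nat.card_coe_set_eq, Subgroup.index]
  have := hfin.to_subtype
  refine Nat.card_le_card_of_injective (fun q : Equiv.Perm {u // u ∈ H} ⧸ Hv H L =>
    (⟨L ∘ act (Equiv.Perm.ofSubtype q.out⁻¹), hF _⟩ : F)) ?_
  intro q q' hqq
  have h2 : L ∘ act (Equiv.Perm.ofSubtype q.out⁻¹) = L ∘ act (Equiv.Perm.ofSubtype q'.out⁻¹) :=
    congrArg Subtype.val hqq
  have h3 : q.out⁻¹ * q'.out ∈ Hv H L := by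
    rw [mem_Hv, map_mul, act_mul, ← Function.comp_assoc, h2, Function.comp_assoc, ← act_mul,
      ← map_mul, inv_mul_cancel, map_one, act_one, Function.comp_id]
  have h4 : (QuotientGroup.mk q.out : Equiv.Perm {u // u ∈ H} ⧸ Hv H L) =
      QuotientGroup.mk q'.out := QuotientGroup.eq.2 h3
  rwa [QuotientGroup.out_eq', QuotientGroup.out_eq'] at h4

end index

section pairs

variable {n k N : ℕ} {T : Type} {H : Finset (Fin n)} (L : Fam n k → T)
  {e : Fin N × ZMod 2 → Fin n} (he : Function.Injective e) (heH : ∀ p, e p ∈ H)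

/-- the vectors act by exchanging the two points of edges -/
noncomputable def AP : VAct N (Fam n k) where
  a := fun f => act (PF e he f)
  zero := by
    have h : PF e he (0 : Fin N → ZMod 2) = 1 := by
      ext u
      exact congrArg Fin.val (pf_zero e he u)
    rw [h, act_one]
  add := by
    intro f f'
    have h : PF e he (f + f') = PF e he f * PF e he f' := by
      ext u
      exact congrArg Fin.val (pf_add e he f f' u)
    rw [h, act_mul]

theorem AP_apply (f : Fin N → ZMod 2) (F : Fam n k) : (AP he).a f F = act (PF e he f) F := rfl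

/-- the subspace of the vectors which do not change a function -/
noncomputable abbrev Zv : Submodule (ZMod 2) (Fin N → ZMod 2) :=
  ZA (AP he) ⊤ (Function.Embedding.refl (Fin N)) L

theorem mem_Zv {f : Fin N → ZMod 2} : f ∈ Zv L he ↔ L ∘ act (PF e he f) = L := by
  constructor
  · rintro ⟨f', _, rfl, h⟩
    exact h
  · intro h
    exact ⟨f, trivial, rfl, h⟩

/-- the pair `i` lies in the class `c` -/
def FreeV (c : Quotient (stoid (Hv H L))) (i : Fin N) : Prop :=
  ∀ x, cls (Hv H L) ⟨e (i, x), heH (i, x)⟩ = c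

theorem perp_free (c : Quotient (stoid (Hv H L))) {i j : Fin N}
    (hi : FreeV L heH c i) (hj : FreeV L heH c j) {w : Fin N → ZMod 2}
    (hw : w ∈ perp (Zv L he)) : w i = w j := by
  classical
  by_cases hij : i = j
  · rw [hij]
  have hne : ∀ (i j : Fin N) (x y : ZMod 2), i ≠ j ∨ x ≠ y →
      (⟨e (i, x), heH (i, x)⟩ : {u // u ∈ H}) ≠ ⟨e (j, y), heH (j, y)⟩ := by
    intro i j x y h h'
    have h1 := he (congrArg Subtype.val h')
    rcases h with h | h
    · exact h (congrArg Prod.fst h1)
    · exact h (congrArg Prod.snd h1)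
  have h01 : (0 : ZMod 2) ≠ 1 := by decide
  have hrel : ∀ {a b : {u // u ∈ H}}, cls (Hv H L) a = c → cls (Hv H L) b = c →
      Rel (Hv H L) a b := fun ha hb => (cls_eq _).1 (ha.trans hb.symm)
  have h1 := swap_swap_mem (H := Hv H L) (a := ⟨e (i, 0), heH (i, 0)⟩)
    (b := ⟨e (i, 1), heH (i, 1)⟩) (c := ⟨e (j, 0), heH (j, 0)⟩) (d := ⟨e (j, 1), heH (j, 1)⟩)
    (hrel (hi 0) (hi 1)) (hrel (hi 0) (hj 0)) (hrel (hi 0) (hj 1))
    (hne _ _ _ _ (Or.inr h01)) (hne _ _ _ _ (Or.inl hij)) (hne _ _ _ _ (Or.inl hij))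
    (hne _ _ _ _ (Or.inl hij)) (hne _ _ _ _ (Or.inr h01))
  rw [mem_Hv, map_mul, Equiv.Perm.ofSubtype_swap_eq, Equiv.Perm.ofSubtype_swap_eq] at h1
  have h4 : (Pi.single i 1 + Pi.single j 1 : Fin N → ZMod 2) ∈ Zv L he := by
    rw [mem_Zv, PF_two e he i j hij]
    exact h1
  have h5 := hw _ h4
  rw [dot_add, dot_comm w, dot_comm w] at h5
  have h6 : ∀ (i : Fin N), dot (Pi.single i 1) w = w i := by
    intro i
    rw [dot_single]
  rw [h6, h6] at h5
  have h7 : ∀ a b : ZMod 2, a + b = 0 → a = b := by decide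
  exact h7 _ _ h5

include he in
theorem card_free (c : Quotient (stoid (Hv H L))) (t : ℕ)
    (hc : Fintype.card {u // u ∈ H} < t + (univ.filter (fun i => cls (Hv H L) i = c)).card) :
    N < (open Classical in (univ.filter (fun i => FreeV L heH c i)).card) + t := by
  classical
  have h1 : (univ.filter (fun i : Fin N => ¬ FreeV L heH c i)).card ≤
      (univ.filter (fun i => ¬ cls (Hv H L) i = c)).card := by
    have hex : ∀ i : Fin N, ¬ FreeV L heH c i →
        ∃ x, ¬ cls (Hv H L) ⟨e (i, x), heH (i, x)⟩ = c := by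
      intro i hi
      by_contra hcon
      push Not at hcon
      exact hi hcon
    choose! x hx using hex
    refine card_le_card_of_injOn (fun i => ⟨e (i, x i), heH (i, x i)⟩) ?_ ?_
    · intro i hi
      rw [mem_coe, mem_filter] at hi
      rw [mem_coe, mem_filter]
      exact ⟨mem_univ _, hx i hi.2⟩
    · intro i _ j _ hij
      exact congrArg Prod.fst (he (congrArg Subtype.val hij))
  have h2 := card_filter_add_card_filter_not (s := (univ : Finset (Fin N)))
    (fun i => FreeV L heH c i)
  have h3 := card_filter_add_card_filter_not (s := (univ : Finset {u // u ∈ H}))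
    (fun i => cls (Hv H L) i = c)
  rw [card_univ] at h2 h3
  rw [Fintype.card_fin] at h2
  omega

variable {V : Type} [Fintype V] [DecidableEq V] (blk : Fin N × Bool → V)

include heH in
theorem sep_class (c : Quotient (stoid (Hv H L))) (t : ℕ)
    (hc : Fintype.card {u // u ∈ H} < t + (univ.filter (fun i => cls (Hv H L) i = c)).card)
    (hG : ∀ y z, BadP y z → ∀ b, agr blk 1 y z b + t ≤ N) :
    Sep2 (RG blk 1) (perp (Zv L he)) := by
  classical
  intro y z hy hz hbad
  have h1 := card_free L he heH c t hc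
  by_cases hne : (univ.filter (fun i : Fin N => FreeV L heH c i)).Nonempty
  · obtain ⟨i₀, hi₀⟩ := hne
    rw [mem_filter] at hi₀
    have h2 : (univ.filter (fun i : Fin N => FreeV L heH c i)).card ≤
        agr blk 1 y z (tr (RG blk 1) y i₀, tr (RG blk 1) z i₀) := by
      unfold agr
      apply card_le_card
      intro i hi
      rw [mem_filter] at hi ⊢
      refine ⟨mem_univ _, ?_⟩
      rw [perp_free L he heH c hi.2 hi₀.2 hy, perp_free L he heH c hi.2 hi₀.2 hz]
    have h3 := hG y z hbad (tr (RG blk 1) y i₀, tr (RG blk 1) z i₀)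
    omega
  · rw [not_nonempty_iff_eq_empty] at hne
    rw [hne, card_empty] at h1
    have h3 := hG y z hbad 0
    omega

end pairs

end Pool.Agent.T9h47.SZ
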