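import Mathlib
import Pool.Agent.T9h47.ST.Main
import Pool.Agent.T9h47.SZ.Gates

/-!
# Set cover and views of circuits: the combinatorial core
-/

set_option autoImplicit false
set_option linter.unusedSectionVars false

namespace Pool.Agent.T9h47.SZ

open Finset
open Pool.Agent.T9h47.SC Pool.Agent.T9h47.SE Pool.Agent.T9h49.SD Pool.Agent.T9h47.ST
open Pool.Agent.T9h47.SY

section gauge

variable {n k N : ℕ} {K : Type} {e : Fin N × ZMod 2 → Fin n} (he : Function.Injective e)
  {V Q : Type} [Fintype V] [DecidableEq V] [Fintype Q] [DecidableEq Q] (blk : Fin N × Bool → V)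
  (own : Fin n → V ⊕ Q) (b₀ b₁ : K)
  (hsm : ∀ c : V ⊕ Q → ZMod 2,
    (fam (fun x => (Sum.inl (blk x) : V ⊕ Q)) e own c).ncard ≤ k * n ∧
      ∀ S ∈ fam (fun x => (Sum.inl (blk x) : V ⊕ Q)) e own c, S.card ≤ k)

/-- the instance for the right hand side `c` -/
def Sf (c : V → ZMod 2) : Fam n k :=
  ⟨fam (fun x => (Sum.inl (blk x) : V ⊕ Q)) e own (Sum.elim c 0), hsm _⟩

theorem elim_add (c : V → ZMod 2) (f : Fin N → ZMod 2) :
    (Sum.elim c 0 + AA (RG (fun x => (Sum.inl (blk x) : V ⊕ Q)) 1) f : V ⊕ Q → ZMod 2) =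
      Sum.elim (c + AA (RG blk 1) f) 0 := by
  rw [AA_elim]
  funext j
  rcases j with v | q
  · rfl
  · show (0 : ZMod 2) + 0 = 0
    rw [add_zero]

include he in
theorem im_im (f : Fin N → ZMod 2) (S : Finset (Fin n)) :
    im (PF e he f) (im (PF e he f) S) = S := by
  show (S.image (PF e he f)).image (PF e he f) = S
  rw [image_image]
  have h : (⇑(PF e he f) ∘ ⇑(PF e he f)) = id := by
    funext u
    exact pf_self e he f u
  rw [h, image_id]

theorem im_comm (f f' : Fin N → ZMod 2) (S : Finset (Fin n)) :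
    im (PF e he f) (im (PF e he f') S) = im (PF e he f') (im (PF e he f) S) := by
  show (S.image (PF e he f')).image (PF e he f) = (S.image (PF e he f)).image (PF e he f')
  rw [image_image, image_image]
  congr 1
  funext u
  show pf e f (pf e f' u) = pf e f' (pf e f u)
  rw [← pf_add e he, ← pf_add e he, add_comm]

theorem act_Sf (f : Fin N → ZMod 2) (c : V → ZMod 2) :
    act (PF e he f) (Sf blk own hsm c) = Sf blk own hsm (c + AA (RG blk 1) f) := by
  refine Subtype.ext ?_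
  show im (PF e he f) '' fam (fun x => (Sum.inl (blk x) : V ⊕ Q)) e own (Sum.elim c 0) =
    fam (fun x => (Sum.inl (blk x) : V ⊕ Q)) e own (Sum.elim (c + AA (RG blk 1) f) 0)
  have key : ∀ S, im (PF e he f) S ∈ fam (fun x => (Sum.inl (blk x) : V ⊕ Q)) e own
      (Sum.elim (c + AA (RG blk 1) f) 0) ↔
      S ∈ fam (fun x => (Sum.inl (blk x) : V ⊕ Q)) e own (Sum.elim c 0) := by
    intro S
    have h1 := fam_flip (fun x => (Sum.inl (blk x) : V ⊕ Q)) e own he (Sum.elim c 0) f S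
    rwa [elim_add] at h1
  ext S
  constructor
  · rintro ⟨S, hS, rfl⟩
    exact (key S).2 hS
  · intro hS
    refine ⟨im (PF e he f) S, ?_, im_im he f S⟩
    rw [← key, im_im he f S]
    exact hS

/-- the input after a renaming -/
noncomputable def ip (σ : Equiv.Perm (Fin n)) (F : Fam n k) : Finset (Fin n) → K :=
  inpF b₀ b₁ (im σ '' F.1)

theorem ip_mem (σ : Equiv.Perm (Fin n)) (F : Fam n k) (i : Finset (Fin n)) :
    ip b₀ b₁ σ F i = open Classical in if im σ⁻¹ i ∈ F.1 then b₁ else b₀ := by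
  classical
  have h : i ∈ im σ '' F.1 ↔ im σ⁻¹ i ∈ F.1 := by
    constructor
    · rintro ⟨S, hS, rfl⟩
      have h1 := congrFun (im_inv σ) S
      rw [Function.comp_apply] at h1
      rw [h1]
      exact hS
    · intro h
      refine ⟨_, h, ?_⟩
      have h1 := congrFun (im_inv σ⁻¹) i
      rw [inv_inv] at h1
      exact h1
  unfold ip inpF
  by_cases h1 : i ∈ im σ '' F.1
  · rw [if_pos h1, if_pos (h.1 h1)]
  · rw [if_neg h1, if_neg (fun h2 => h1 (h.2 h2))]

theorem ip_loc (hkn : 1 ≤ k * n) (σ : Equiv.Perm (Fin n)) (c : V → ZMod 2)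
    (f₁ : Fin N → ZMod 2) (i : Finset (Fin n))
    (hne : ip b₀ b₁ σ (act (PF e he f₁) (Sf blk own hsm c)) i ≠
      ip b₀ b₁ σ (act (PF e he f₁) (Sf blk own hsm 0)) i) :
    ∃ j, c j ≠ 0 ∧ ∀ f, (∀ x : Fam n k, ip b₀ b₁ σ (act (PF e he f) x) i = ip b₀ b₁ σ x i) →
      AA (RG blk 1) f j = 0 := by
  classical
  obtain ⟨i', hi'⟩ : ∃ i', i' = im σ⁻¹ i := ⟨_, rfl⟩
  rw [ip_mem, ip_mem, ← hi'] at hne
  obtain ⟨i₂, hi₂⟩ : ∃ i₂, i₂ = im (PF e he f₁) i' := ⟨_, rfl⟩
  have hmem : ∀ (f : Fin N → ZMod 2) (F : Fam n k), i' ∈ (act (PF e he f) F).1 ↔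
      im (PF e he f) i' ∈ F.1 := by
    intro f F
    show i' ∈ im (PF e he f) '' F.1 ↔ _
    constructor
    · rintro ⟨S, hS, rfl⟩
      rw [im_im he f S]
      exact hS
    · intro h
      exact ⟨_, h, im_im he f i'⟩
  have hb : b₁ ≠ b₀ := by
    rintro rfl
    apply hne
    rw [ite_self, ite_self]
  have hiff : ¬ (i₂ ∈ fam (fun x => (Sum.inl (blk x) : V ⊕ Q)) e own (Sum.elim c 0) ↔
      i₂ ∈ fam (fun x => (Sum.inl (blk x) : V ⊕ Q)) e own 0) := by
    intro h
    apply hne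
    have h0 : (Sum.elim (0 : V → ZMod 2) 0 : V ⊕ Q → ZMod 2) = 0 := by
      funext j
      rcases j with v | q <;> rfl
    have h3 : i' ∈ (act (PF e he f₁) (Sf blk own hsm c)).1 ↔
        i' ∈ (act (PF e he f₁) (Sf blk own hsm 0)).1 := by
      rw [hmem, hmem, ← hi₂]
      show i₂ ∈ fam (fun x => (Sum.inl (blk x) : V ⊕ Q)) e own (Sum.elim c 0) ↔
        i₂ ∈ fam (fun x => (Sum.inl (blk x) : V ⊕ Q)) e own (Sum.elim 0 0)
      rw [h0]
      exact h
    by_cases h4 : i' ∈ (act (PF e he f₁) (Sf blk own hsm c)).1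
    · rw [if_pos h4, if_pos (h3.1 h4)]
    · rw [if_neg h4, if_neg (fun h5 => h4 (h3.2 h5))]
  have hcard : i'.card ≤ k := by
    have h1 : i₂.card = i'.card := by
      rw [hi₂]
      exact card_image_of_injective _ (PF e he f₁).injective
    rw [← h1]
    by_cases h2 : i₂ ∈ fam (fun x => (Sum.inl (blk x) : V ⊕ Q)) e own (Sum.elim c 0)
    · exact (hsm _).2 _ h2
    · by_cases h3 : i₂ ∈ fam (fun x => (Sum.inl (blk x) : V ⊕ Q)) e own 0
      · exact (hsm _).2 _ h3
      · exact absurd ⟨fun h => absurd h h2, fun h => absurd h h3⟩ hiff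
  obtain ⟨j, hj, h2⟩ := fam_loc (fun x => (Sum.inl (blk x) : V ⊕ Q)) e own he
    (Sum.elim c 0) i₂ hiff
  rcases j with v | q
  · refine ⟨v, hj, fun f hf => ?_⟩
    obtain ⟨x, hx⟩ : ∃ x : Fam n k, x.1 = {i'} := ⟨⟨{i'}, by
      rw [Set.ncard_singleton]
      exact hkn, by
      rintro S rfl
      exact hcard⟩, rfl⟩
    have h3 := hf x
    rw [ip_mem, ip_mem, ← hi', if_pos (by rw [hx]; exact rfl : i' ∈ x.1)] at h3
    have h4 : i' ∈ (act (PF e he f) x).1 := by
      by_contra h4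
      rw [if_neg h4] at h3
      exact hb h3.symm
    rw [hmem, hx] at h4
    have h5 : im (PF e he f) i' = i' := h4
    have h6 : im (PF e he f) i₂ = i₂ := by
      rw [hi₂, im_comm he, h5]
    have h7 := h2 f h6
    rwa [RG_inl] at h7
  · exact absurd rfl hj

end gauge

section avg

variable {n N : ℕ} {e : Fin N × ZMod 2 → Fin n} (he : Function.Injective e)

/-- averages over the permutations -/
theorem avg (P : Finset (Equiv.Perm (Fin n))) (hP : ∀ f σ, σ ∈ P ↔ σ * PF e he f ∈ P)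
    (Q₀ Q₁ : Equiv.Perm (Fin n) → Prop)
    (h : ∀ σ ∈ P, Nat.card {f : Fin N → ZMod 2 // Q₁ (σ * PF e he f)} =
      Nat.card {f : Fin N → ZMod 2 // Q₀ (σ * PF e he f)}) :
    (open Classical in (P.filter Q₁).card) = (open Classical in (P.filter Q₀).card) := by
  classical
  have key : ∀ Q : Equiv.Perm (Fin n) → Prop,
      ∑ σ ∈ P, Nat.card {f : Fin N → ZMod 2 // Q (σ * PF e he f)} =
        Fintype.card (Fin N → ZMod 2) * (P.filter Q).card := by
    intro Q
    have h1 : ∀ σ ∈ P, Nat.card {f : Fin N → ZMod 2 // Q (σ * PF e he f)} =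
        ∑ f : Fin N → ZMod 2, if Q (σ * PF e he f) then 1 else 0 := by
      intro σ _
      rw [Nat.card_eq_fintype_card, Fintype.card_subtype, card_filter]
    rw [sum_congr rfl h1, sum_comm]
    have h2 : ∀ f : Fin N → ZMod 2, (∑ σ ∈ P, if Q (σ * PF e he f) then 1 else 0) =
        (P.filter Q).card := by
      intro f
      rw [card_filter]
      exact sum_equiv (Equiv.mulRight (PF e he f)) (fun σ => hP f σ) (fun σ _ => rfl)
    rw [sum_congr rfl (fun f _ => h2 f), sum_const, card_univ, smul_eq_mul]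
  have h3 := key Q₀
  rw [← sum_congr rfl h, key Q₁] at h3
  exact Nat.eq_of_mul_eq_mul_left Fintype.card_pos h3

end avg

end Pool.Agent.T9h47.SZ
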