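import Mathlib
import Pool.Agent.T9h47.SZ.Core

/-!
# Set cover and views of circuits: the lower bound
-/

set_option autoImplicit false
set_option linter.unusedSectionVars false

namespace Pool.Agent.T9h47.SZ

open Finset
open Pool.Agent.T9h47.SC Pool.Agent.T9h47.SE Pool.Agent.T9h49.SD Pool.Agent.T9h47.ST
open Pool.Agent.T9h47.SY Pool.Agent.T9h47.SX

theorem views_finite {K : Type} {n : ℕ} (k : ℕ) (H : Finset (Fin n))
    (C : Circuit K (Finset (Fin n))) (b₀ b₁ : K) : (views k H C b₀ b₁).Finite := by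
  let _ := C.fin
  have h1 : views k H C b₀ b₁ ⊆ Set.range (fun (p : C.Gate × Equiv.Perm (Fin n))
      (F : Fam n k) => view C p.1 (inpF b₀ b₁ (im p.2 '' F.1))) := by
    rintro L ⟨g, σ, _, rfl⟩
    exact ⟨(g, σ), rfl⟩
  exact (Set.finite_range _).subset h1

theorem views_closed {K : Type} {n : ℕ} (k : ℕ) (H : Finset (Fin n))
    (C : Circuit K (Finset (Fin n))) (b₀ b₁ : K) {L : Fam n k → K × (ℕ → Multiset K)}
    (hL : L ∈ views k H C b₀ b₁) (σ : Equiv.Perm {u // u ∈ H}) :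
    L ∘ act (Equiv.Perm.ofSubtype σ) ∈ views k H C b₀ b₁ := by
  obtain ⟨g, τ, hτ, rfl⟩ := hL
  refine ⟨g, τ * Equiv.Perm.ofSubtype σ, ?_, ?_⟩
  · intro u hu
    rw [Equiv.Perm.mul_apply, Equiv.Perm.ofSubtype_apply_of_not_mem σ hu, hτ u hu]
  · funext F
    show view C g (inpF b₀ b₁ (im τ '' (im (Equiv.Perm.ofSubtype σ) '' F.1))) = _
    rw [im_mul, Set.image_comp]

/-- the combinatorial core: two families which circuits cannot tell apart on average if all views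
have a large class -/
theorem core {n N k₀ μ k : ℕ} (H : Finset (Fin n)) (hμ : 0 < μ) (hN : N = μ * k₀)
    (hk : k = 2 ^ k₀ + 3 * k₀ + 3)
    (hH : 2 * N + 2 * μ ≤ H.card) (hH' : H.card ≤ 2 * N + 2 * μ + (2 * k₀ + 2))
    (blk : Fin N × Bool → Fin (2 * μ)) (hblk : ∀ v, (univ.filter (fun x => blk x = v)).card = k₀)
    (t : ℕ) (hG : ∀ y z, BadP y z → ∀ b, agr blk 1 y z b + t ≤ N) :
    ∃ F₀ F₁ : Fam n k,
      Part F₀.1 (2 * μ + (n - H.card)) ∧ ¬ Cov F₁.1 (2 * μ + (n - H.card)) ∧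
      ∀ (K : Type) (C : Circuit K (Finset (Fin n))) (b₀ b₁ : K),
        (∀ L ∈ views k H C b₀ b₁, ∃ c, Fintype.card {u // u ∈ H} <
          t + (univ.filter (fun i => cls (Hv H L) i = c)).card) → ∀ v : K,
        Nat.card {σ : Equiv.Perm (Fin n) // (∀ u, u ∉ H → σ u = u) ∧
          C.val (inpF b₀ b₁ (im σ '' F₁.1)) C.out = v} =
        Nat.card {σ : Equiv.Perm (Fin n) // (∀ u, u ∉ H → σ u = u) ∧
          C.val (inpF b₀ b₁ (im σ '' F₀.1)) C.out = v} := by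
  classical
  have hcJ : Fintype.card (Fin (2 * μ) ⊕ {u // u ∉ H}) = 2 * μ + (n - H.card) := by
    rw [Fintype.card_sum, Fintype.card_fin, Fintype.card_subtype_compl, Fintype.card_fin,
      Fintype.card_coe]
  have hHn : H.card ≤ n := by
    have := card_le_univ H
    rwa [Fintype.card_fin] at this
  have he := ee_inj H N μ hH
  have heH := ee_mem H N μ hH
  obtain ⟨bl, hbl⟩ : ∃ bl : Fin N × Bool → Fin (2 * μ) ⊕ {u // u ∉ H},
    bl = fun x => Sum.inl (blk x) := ⟨_, rfl⟩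
  have hdeg : ∀ j, (univ.filter (fun x => bl x = j)).card ≤ k₀ := by
    intro j
    rcases j with v | u
    · rw [← hblk v]
      apply card_le_card
      intro x hx
      rw [mem_filter] at hx ⊢
      refine ⟨mem_univ _, ?_⟩
      have h1 := hx.2
      rw [hbl] at h1
      exact Sum.inl.inj h1
    · have h1 : univ.filter (fun x => bl x = Sum.inr u) = ∅ := by
        rw [filter_eq_empty_iff]
        intro x _
        rw [hbl]
        exact fun h => absurd h (by simp)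
      rw [h1, card_empty]
      exact Nat.zero_le _
  obtain ⟨own, hown⟩ : ∃ own, own = oo H N μ hμ := ⟨_, rfl⟩
  have hsurj : ∀ j, ∃ u, (¬ ∃ p, ee H N μ hH p = u) ∧ own u = j := by
    rw [hown]
    exact oo_surj H N μ hH hμ
  -- the families are small
  have hsmall : ∀ c : Fin (2 * μ) ⊕ {u // u ∉ H} → ZMod 2,
      (fam bl (ee H N μ hH) own c).ncard ≤ k * n ∧
      (∀ S ∈ fam bl (ee H N μ hH) own c, S.card ≤ k) := by
    rw [hk]
    intro c
    constructor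
    · refine (fam_card bl (ee H N μ hH) own c k₀ hdeg).trans ?_
      rw [hcJ, mul_comm]
      have h1 : 2 * μ + (n - H.card) ≤ n := by omega
      refine Nat.mul_le_mul ?_ h1
      rw [add_assoc]
      exact Nat.le_add_right _ _
    · rintro S ⟨j, a, rfl, _⟩
      have h1 := card_st bl (ee H N μ hH) own j a
      have h2 := oo_card H N μ hH hμ (2 * k₀ + 2) hH' j
      have h3 := hdeg j
      have h5 : (2 * k₀ + 2 + 1) + k₀ ≤ 2 ^ k₀ + 3 * k₀ + 3 := by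
        calc (2 * k₀ + 2 + 1) + k₀ = 3 * k₀ + 3 := by ring
          _ ≤ 2 ^ k₀ + (3 * k₀ + 3) := Nat.le_add_left _ _
          _ = _ := by ring
      refine h1.trans ((Nat.add_le_add ?_ h3).trans h5)
      refine le_trans (card_le_card ?_) h2
      intro u hu
      rw [mem_filter] at hu ⊢
      rw [hown] at hu
      exact hu
  have hone := tr_RG_one blk 1
  have hVc : Fintype.card (Fin (2 * μ)) = 2 * μ := Fintype.card_fin _
  have hV : 2 ≤ Fintype.card (Fin (2 * μ)) := by rw [hVc]; omega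
  obtain ⟨j₀⟩ : Nonempty (Fin (2 * μ)) := ⟨⟨0, by omega⟩⟩
  obtain ⟨c, hc⟩ : ∃ c, c = cRG blk j₀ 1 := ⟨_, rfl⟩
  have hc2 : ¬ ∃ a, AA (RG blk 1) a = c := by
    rw [hc]
    exact cRG_unsat blk j₀ hV 1
  have hsm : ∀ c : Fin (2 * μ) ⊕ {u // u ∉ H} → ZMod 2,
      (fam (fun x => (Sum.inl (blk x) : Fin (2 * μ) ⊕ {u // u ∉ H})) (ee H N μ hH) own c).ncard ≤
        k * n ∧
      (∀ S ∈ fam (fun x => (Sum.inl (blk x) : Fin (2 * μ) ⊕ {u // u ∉ H})) (ee H N μ hH) own c,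
        S.card ≤ k) := by
    rw [hbl] at hsmall
    exact hsmall
  have hkn : 1 ≤ k * n := by
    have h1 : 1 ≤ k := by
      rw [hk]
      exact le_trans (by norm_num) (Nat.le_add_left 3 _)
    have h2 : 1 ≤ n := by omega
    exact Nat.mul_le_mul h1 h2
  refine ⟨Sf blk own hsm 0, Sf blk own hsm c, ?_, ?_, ?_⟩
  · show Part (fam (fun x => (Sum.inl (blk x) : Fin (2 * μ) ⊕ {u // u ∉ H})) (ee H N μ hH) own
      (Sum.elim 0 0)) _
    rw [← hcJ, ← hbl]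
    apply part_fam bl (ee H N μ hH) own he _ 0
    rw [map_zero]
    funext j
    rcases j with v | q <;> rfl
  · show ¬ Cov (fam (fun x => (Sum.inl (blk x) : Fin (2 * μ) ⊕ {u // u ∉ H})) (ee H N μ hH) own
      (Sum.elim c 0)) _
    rw [← hcJ, ← hbl, cov_fam bl (ee H N μ hH) own he hsurj]
    rintro ⟨a, ha⟩
    apply hc2
    refine ⟨a, ?_⟩
    rw [hbl, AA_elim] at ha
    funext v
    exact congrFun ha (Sum.inl v)
  intro K C b₀ b₁ hcl v
  obtain ⟨P, hP⟩ : ∃ P : Finset (Equiv.Perm (Fin n)), P = univ.filter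
    (fun σ => ∀ u, u ∉ H → σ u = u) := ⟨_, rfl⟩
  have hPm : ∀ σ, σ ∈ P ↔ ∀ u, u ∉ H → σ u = u := by
    intro σ
    rw [hP, mem_filter]
    exact ⟨fun h => h.2, fun h => ⟨mem_univ _, h⟩⟩
  have hPF : ∀ (f : Fin N → ZMod 2) (u : Fin n), u ∉ H → PF (ee H N μ hH) he f u = u := by
    intro f u hu
    apply pf_out
    rintro ⟨p, rfl⟩
    exact hu (heH p)
  have hPP : ∀ f σ, σ ∈ P ↔ σ * PF (ee H N μ hH) he f ∈ P := by
    intro f σ
    rw [hPm, hPm]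
    refine forall_congr' fun u => forall_congr' fun hu => ?_
    rw [Equiv.Perm.mul_apply, hPF f u hu]
  have hcnt : ∀ F : Fam n k, Nat.card {σ : Equiv.Perm (Fin n) // (∀ u, u ∉ H → σ u = u) ∧
      C.val (inpF b₀ b₁ (im σ '' F.1)) C.out = v} =
      (P.filter (fun σ => C.val (inpF b₀ b₁ (im σ '' F.1)) C.out = v)).card := by
    intro F
    rw [Nat.card_eq_fintype_card, Fintype.card_subtype, hP, filter_filter]
  rw [hcnt, hcnt]
  refine avg he P hPP (fun σ => C.val (inpF b₀ b₁ (im σ '' (Sf blk own hsm 0).1)) C.out = v)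
    (fun σ => C.val (inpF b₀ b₁ (im σ '' (Sf blk own hsm c).1)) C.out = v) ?_
  intro σ hσ
  rw [hPm] at hσ
  -- the separation property
  have hsep : ∀ g, Sep2 (RG blk 1) (perp (ZA (AP (k := k) he) ⊤
      (Function.Embedding.refl (Fin N)) (vi (ip b₀ b₁ σ) C g))) := by
    intro g
    obtain ⟨c, hc⟩ := hcl (vi (ip b₀ b₁ σ) C g) ⟨g, σ, hσ, rfl⟩
    exact sep_class (vi (ip b₀ b₁ σ) C g) he heH blk c t hc hG
  have hgood : ∃ c, Good (RG blk 1) ⊤ c := by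
    obtain ⟨c', hc'⟩ := exists_good2 (RG blk 1) hone _ (hsep C.out)
    exact ⟨c', good_mono _ le_top hc'⟩
  have hc1 : Good (RG blk 1) ⊤ c := by
    rw [hc]
    exact cRG_good blk j₀ 1 hgood
  have hmain := card_yA (AP (k := k) he) ⊤ (Function.Embedding.refl (Fin N)) (ip b₀ b₁ σ) C
    (fun t => ⟨t, trivial, rfl⟩) (RG blk 1) hone hV (Sf blk own hsm)
    (fun f c => act_Sf he blk own hsm f c)
    (fun c f₁ i hne => ip_loc he blk own b₀ b₁ hsm hkn σ c f₁ i hne) hsep {v} c hc1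
  have hre : ∀ c : Fin (2 * μ) → ZMod 2,
      Nat.card {f : (⊤ : AddSubgroup (Fin N → ZMod 2)) // C.val (yA (AP (k := k) he) ⊤
        (ip b₀ b₁ σ) (Sf blk own hsm) f c) C.out ∈ ({v} : Set K)} =
      Nat.card {f : Fin N → ZMod 2 // C.val (inpF b₀ b₁
        (im (σ * PF (ee H N μ hH) he f) '' (Sf blk own hsm c).1)) C.out = v} := by
    intro c
    refine Nat.card_congr ((AddSubgroup.topEquiv (G := Fin N → ZMod 2)).toEquiv.subtypeEquiv ?_)
    intro f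
    have h1 : yA (AP (k := k) he) ⊤ (ip b₀ b₁ σ) (Sf blk own hsm) f c =
        inpF b₀ b₁ (im (σ * PF (ee H N μ hH) he f.1) '' (Sf blk own hsm c).1) := by
      show inpF b₀ b₁ (im σ '' (im (PF (ee H N μ hH) he f.1) '' (Sf blk own hsm c).1)) = _
      rw [im_mul, Set.image_comp]
    rw [h1]
    rfl
  rw [hre, hre] at hmain
  exact hmain

/-- **Set cover needs circuits with many views.** -/
theorem cover_views (β : ℝ) (hβ0 : 0 ≤ β) (hβ : β < 4 / 3 ^ (3 / 4 : ℝ)) :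
    ∃ k h₀ : ℕ, ∀ (n : ℕ) (H : Finset (Fin n)), h₀ ≤ H.card →
      ∃ t ≤ n, ∃ F₀ F₁ : Fam n k, Part F₀.1 t ∧ ¬ Cov F₁.1 t ∧
        ∀ (K : Type) (C : Circuit K (Finset (Fin n))) (b₀ b₁ : K),
          ((views k H C b₀ b₁).ncard : ℝ) ≤ β ^ H.card → ∀ v : K,
          Nat.card {σ : Equiv.Perm (Fin n) // (∀ u, u ∉ H → σ u = u) ∧
            C.val (inpF b₀ b₁ (im σ '' F₀.1)) C.out = v} =
          Nat.card {σ : Equiv.Perm (Fin n) // (∀ u, u ∉ H → σ u = u) ∧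
            C.val (inpF b₀ b₁ (im σ '' F₁.1)) C.out = v} := by
  classical
  obtain ⟨β₁, hβ₁⟩ : ∃ β₁, β₁ = max β 1 := ⟨_, rfl⟩
  have hβ₁1 : 1 ≤ β₁ := by rw [hβ₁]; exact le_max_right _ _
  have hββ₁ : β ≤ β₁ := by rw [hβ₁]; exact le_max_left _ _
  have h3 : (3 : ℝ) ^ (3 / 4 : ℝ) < 4 := by
    have h4 : (3 : ℝ) ^ (3 / 4 : ℝ) ≤ 3 ^ (1 : ℝ) :=
      Real.rpow_le_rpow_of_exponent_le (by norm_num) (by norm_num)
    rw [Real.rpow_one] at h4
    linarith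
  have h30 : (0 : ℝ) < 3 ^ (3 / 4 : ℝ) := Real.rpow_pos_of_pos (by norm_num) _
  have hβ₁2 : β₁ < 4 / 3 ^ (3 / 4 : ℝ) := by
    rw [hβ₁]
    refine max_lt hβ ?_
    rw [lt_div_iff₀ h30, one_mul]
    exact h3
  obtain ⟨δ, hδ0, hδ1, h₁, hh₁⟩ := num_main β₁ hβ₁1 hβ₁2
  obtain ⟨k₀, hk₀⟩ : ∃ k₀ : ℕ, k₀ = ⌈20 / (3 * δ ^ 2)⌉₊ + ⌈1 / δ⌉₊ := ⟨_, rfl⟩
  have hk₁ : 20 ≤ 3 * δ ^ 2 * k₀ := by
    have h4 : 20 / (3 * δ ^ 2) ≤ k₀ := by
      refine (Nat.le_ceil _).trans ?_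
      rw [hk₀]
      push_cast
      have : (0 : ℝ) ≤ (⌈1 / δ⌉₊ : ℕ) := Nat.cast_nonneg _
      linarith
    rw [div_le_iff₀ (by positivity)] at h4
    linarith
  have hk₂ : 1 ≤ δ * k₀ := by
    have h4 : 1 / δ ≤ k₀ := by
      refine (Nat.le_ceil _).trans ?_
      rw [hk₀]
      push_cast
      have : (0 : ℝ) ≤ (⌈20 / (3 * δ ^ 2)⌉₊ : ℕ) := Nat.cast_nonneg _
      linarith
    rw [div_le_iff₀ hδ0] at h4
    linarith
  obtain ⟨μ₀, hμ₀⟩ := exists_graph δ hδ0 (by linarith) k₀ hk₁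
  refine ⟨2 ^ k₀ + 3 * k₀ + 3, max (max h₁ 12) ((μ₀ + k₀ + 3) * (2 * k₀ + 2)),
    fun n H hH => ?_⟩
  obtain ⟨h, hh⟩ : ∃ h, h = H.card := ⟨_, rfl⟩
  rw [← hh] at hH
  have hH1 : h₁ ≤ h := (le_max_left _ _).trans ((le_max_left _ _).trans hH)
  have hH2 : 12 ≤ h := (le_max_right _ _).trans ((le_max_left _ _).trans hH)
  have hH3 : (μ₀ + k₀ + 3) * (2 * k₀ + 2) ≤ h := (le_max_right _ _).trans hH
  obtain ⟨μ, hμ⟩ : ∃ μ, μ = h / (2 * k₀ + 2) := ⟨_, rfl⟩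
  have hμ1 : μ₀ + k₀ + 3 ≤ μ := by
    rw [hμ, Nat.le_div_iff_mul_le (by omega)]
    exact hH3
  have hμ2 : μ * (2 * k₀ + 2) ≤ h := by rw [hμ]; exact Nat.div_mul_le_self _ _
  have hμ3 : h < (μ + 1) * (2 * k₀ + 2) := by
    rw [hμ]
    have := Nat.lt_div_mul_add (a := h) (b := 2 * k₀ + 2) (by omega)
    calc h < h / (2 * k₀ + 2) * (2 * k₀ + 2) + (2 * k₀ + 2) := this
      _ = _ := by ring
  obtain ⟨blk, hblk, hgr⟩ := hμ₀ μ (by omega) (by omega)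
  have hHn : h ≤ n := by
    have := card_le_univ H
    rw [Fintype.card_fin] at this
    omega
  have e1 : μ * (2 * k₀ + 2) = 2 * (μ * k₀) + 2 * μ := by ring
  have e2 : (μ + 1) * (2 * k₀ + 2) = 2 * (μ * k₀) + 2 * μ + (2 * k₀ + 2) := by ring
  rw [e1] at hμ2
  rw [e2] at hμ3
  have hhR : (12 : ℝ) ≤ h := by exact_mod_cast hH2
  obtain ⟨t, ht⟩ : ∃ t : ℕ, t = ⌈(1 / 4 - δ) * (h : ℝ)⌉₊ := ⟨_, rfl⟩
  have hq : 0 < (1 / 4 - δ) * (h : ℝ) := mul_pos (by linarith) (by linarith)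
  have ht0 : 0 < t := by rw [ht]; exact Nat.ceil_pos.2 hq
  have ht1 : (1 / 4 - δ) * (h : ℝ) ≤ t := by rw [ht]; exact Nat.le_ceil _
  have ht2 : (t : ℝ) < (1 / 4 - δ) * (h : ℝ) + 1 := by
    rw [ht]
    exact Nat.ceil_lt_add_one hq.le
  have ht3 : 3 * t ≤ h := by
    have : (3 : ℝ) * t ≤ h := by nlinarith
    exact_mod_cast this
  have hcardH : Fintype.card {u // u ∈ H} = h := by rw [Fintype.card_coe, hh]
  have hG : ∀ y z, BadP y z → ∀ b, agr blk 1 y z b + t ≤ μ * k₀ := by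
    intro y z hb b
    have h4 := hgr y z hb b
    have h5 : (h : ℝ) ≤ 2 * ((μ * k₀ : ℕ) : ℝ) + 2 * μ + (2 * k₀ + 2) := by
      exact_mod_cast hμ3.le
    have h6 : (μ : ℝ) ≤ δ * ((μ * k₀ : ℕ) : ℝ) := by
      push_cast
      have : (0 : ℝ) ≤ μ := Nat.cast_nonneg _
      nlinarith
    have h7 : (k₀ : ℝ) + 3 ≤ μ := by
      have : k₀ + 3 ≤ μ := by omega
      exact_mod_cast this
    have h8 : (1 / 4 - δ) * (h : ℝ) ≤
        (1 / 4 - δ) * (2 * ((μ * k₀ : ℕ) : ℝ) + 2 * μ + (2 * k₀ + 2)) :=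
      mul_le_mul_of_nonneg_left h5 (by linarith)
    have h9 : (0 : ℝ) ≤ ((μ * k₀ : ℕ) : ℝ) := Nat.cast_nonneg _
    have h10 : (0 : ℝ) ≤ δ * (2 * μ + (2 * k₀ + 2)) := by positivity
    have h11 : ((agr blk 1 y z b + t : ℕ) : ℝ) < ((μ * k₀ : ℕ) : ℝ) := by
      rw [Nat.cast_add]
      nlinarith
    exact (Nat.cast_lt.1 h11).le
  obtain ⟨F₀, F₁, hF4, hF5, hF6⟩ := core H (by omega) rfl rfl (by omega) (by omega) blk hblk t hG
  refine ⟨2 * μ + (n - H.card), by omega, F₀, F₁, hF4, hF5, ?_⟩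
  intro K C b₀ b₁ hcon v
  rw [← hh] at hcon
  have hs : ((views (2 ^ k₀ + 3 * k₀ + 3) H C b₀ b₁).ncard : ℝ) ≤ β₁ ^ h :=
    hcon.trans (pow_le_pow_left₀ hβ0 hββ₁ h)
  refine (hF6 K C b₀ b₁ ?_ v).symm
  intro L hL
  apply exists_class (Hv H L) t (by rw [hcardH]; exact ht3) ht0
  intro j hj1 hj2
  rw [hcardH] at hj2 ⊢
  have hind : ((Hv H L).index : ℝ) ≤ β₁ ^ h := by
    refine le_trans ?_ hs
    have h12 := Hv_index H L (views (2 ^ k₀ + 3 * k₀ + 3) H C b₀ b₁) (views_finite _ H C b₀ b₁)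
      (fun σ => views_closed _ H C b₀ b₁ hL σ)
    exact_mod_cast h12
  apply hh₁ h hH1 _ _ (index_ge (Hv H L)) hind j
  · exact ht1.trans (by exact_mod_cast hj1)
  · have h4 : (j : ℝ) + t ≤ h := by exact_mod_cast hj2
    linarith

end Pool.Agent.T9h47.SZ
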