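import Mathlib
import Pool.Agent.T9h47.SY.Final
import Pool.Agent.T9h47.SZ.Fin
import Pool.Agent.T9h47.ST.IncExc

/-!
# Set cover and views of circuits: the bounds on the number of views
-/

set_option autoImplicit false
set_option linter.unusedSectionVars false

namespace Pool.Agent.T9h47.SZ

open Finset
open Pool.Agent.T9h47.SC Pool.Agent.T9h47.ST

/-- renaming keeps partitions -/
theorem part_im {n : ℕ} {F : Set (Finset (Fin n))} {t : ℕ} (h : Part F t)
    (σ : Equiv.Perm (Fin n)) : Part (im σ '' F) t := by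
  classical
  obtain ⟨T, h1, h2, h3, h4⟩ := h
  refine ⟨T.image (im σ), ?_, card_image_le.trans h2, ?_, ?_⟩
  · intro S hS
    rw [mem_image] at hS
    obtain ⟨S', hS', rfl⟩ := hS
    exact ⟨S', h1 S' hS', rfl⟩
  · intro S hS S' hS' hne
    rw [mem_image] at hS hS'
    obtain ⟨A, hA, rfl⟩ := hS
    obtain ⟨A', hA', rfl⟩ := hS'
    have h5 := h3 A hA A' hA' (fun h6 => hne (by rw [h6]))
    show Disjoint (A.image σ) (A'.image σ)
    rw [disjoint_image σ.injective]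
    exact h5
  · intro u
    obtain ⟨S, hS, hu⟩ := h4 (σ.symm u)
    refine ⟨im σ S, mem_image_of_mem _ hS, ?_⟩
    show u ∈ S.image σ
    rw [mem_image]
    exact ⟨_, hu, σ.apply_symm_apply u⟩

/-- **Set cover needs circuits with many views**, with the worst case form. -/
theorem cover_main (β : ℝ) (hβ0 : 0 ≤ β) (hβ : β < 4 / 3 ^ (3 / 4 : ℝ)) :
    ∃ k h₀ : ℕ, ∀ (n : ℕ) (H : Finset (Fin n)), h₀ ≤ H.card →
      ∃ t ≤ n,
        (∃ F₀ F₁ : Fam n k, Part F₀.1 t ∧ ¬ Cov F₁.1 t ∧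
          ∀ (K : Type) (C : Circuit K (Finset (Fin n))) (b₀ b₁ : K),
            ((views k H C b₀ b₁).ncard : ℝ) ≤ β ^ H.card → ∀ v : K,
            Nat.card {σ : Equiv.Perm (Fin n) // (∀ u, u ∉ H → σ u = u) ∧
              C.val (inpF b₀ b₁ (im σ '' F₀.1)) C.out = v} =
            Nat.card {σ : Equiv.Perm (Fin n) // (∀ u, u ∉ H → σ u = u) ∧
              C.val (inpF b₀ b₁ (im σ '' F₁.1)) C.out = v}) ∧
        ∀ (K : Type) (C : Circuit K (Finset (Fin n))) (b₀ b₁ : K) (Acc : Set K),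
          (∀ F : Fam n k, Part F.1 t → C.val (inpF b₀ b₁ F.1) C.out ∈ Acc) →
          (∀ F : Fam n k, C.val (inpF b₀ b₁ F.1) C.out ∈ Acc → Cov F.1 t) →
          β ^ H.card < ((views k H C b₀ b₁).ncard : ℝ) := by
  classical
  obtain ⟨k, h₀, hm⟩ := cover_views β hβ0 hβ
  refine ⟨k, h₀, fun n H hH => ?_⟩
  obtain ⟨t, ht, F₀, F₁, h1, h2, h3⟩ := hm n H hH
  refine ⟨t, ht, ⟨F₀, F₁, h1, h2, h3⟩, ?_⟩
  intro K C b₀ b₁ Acc hA hB
  by_contra hcon
  have h4 := h3 K C b₀ b₁ (not_lt.1 hcon) (C.val (inpF b₀ b₁ (im 1 '' F₁.1)) C.out)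
  have h5 : 0 < Nat.card {σ : Equiv.Perm (Fin n) // (∀ u, u ∉ H → σ u = u) ∧
      C.val (inpF b₀ b₁ (im σ '' F₁.1)) C.out = C.val (inpF b₀ b₁ (im 1 '' F₁.1)) C.out} := by
    have : Nonempty {σ : Equiv.Perm (Fin n) // (∀ u, u ∉ H → σ u = u) ∧
      C.val (inpF b₀ b₁ (im σ '' F₁.1)) C.out = C.val (inpF b₀ b₁ (im 1 '' F₁.1)) C.out} :=
      ⟨⟨1, fun _ _ => rfl, rfl⟩⟩
    exact Nat.card_pos
  rw [← h4] at h5
  obtain ⟨⟨σ, hσ, hv⟩⟩ := (Nat.card_pos_iff.1 h5).1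
  have h6 : C.val (inpF b₀ b₁ (act σ F₀).1) C.out ∈ Acc := hA (act σ F₀) (part_im h1 σ)
  have h7 : C.val (inpF b₀ b₁ (im σ '' F₀.1)) C.out ∈ Acc := h6
  rw [hv, im_one, Set.image_id] at h7
  exact h2 (hB F₁ h7)

/-- a symmetric circuit has at most as many views as gates -/
theorem views_symm {K : Type} {n : ℕ} (k : ℕ) (H : Finset (Fin n))
    (C : Circuit K (Finset (Fin n))) (b₀ b₁ : K) (hS : SymOn C H) :
    (views k H C b₀ b₁).ncard ≤ @Fintype.card C.Gate C.fin := by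
  classical
  let _ := C.fin
  have h1 : views k H C b₀ b₁ ⊆ Set.range (fun (g : C.Gate) (F : Fam n k) =>
      view C g (inpF b₀ b₁ F.1)) := by
    rintro L ⟨g, σ, hσ, rfl⟩
    have hσ' : ∀ u, u ∉ H → σ⁻¹ u = u := by
      intro u hu
      rw [Equiv.Perm.inv_eq_iff_eq]
      exact (hσ u hu).symm
    obtain ⟨α, hα⟩ := hS σ⁻¹ hσ'
    refine ⟨α g, ?_⟩
    funext F
    show view C (α g) (inpF b₀ b₁ F.1) = view C g (inpF b₀ b₁ (im σ '' F.1))
    have h2 : view C (α g) (inpF b₀ b₁ F.1) = view C g (inpF b₀ b₁ F.1 ∘ im σ⁻¹) :=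
      SY.view_aut C hα g _
    rw [h2]
    congr 1
    funext i
    exact (ip_mem b₀ b₁ σ F i).symm
  refine (Set.ncard_le_ncard h1 (Set.finite_range _)).trans ?_
  rw [← Nat.card_coe_set_eq, ← Nat.card_eq_fintype_card]
  exact Nat.card_le_card_of_surjective (Set.rangeFactorization _)
    Set.rangeFactorization_surjective

/-- a circuit has at most `|H|!` times as many views as gates -/
theorem views_le {K : Type} {n : ℕ} (k : ℕ) (H : Finset (Fin n))
    (C : Circuit K (Finset (Fin n))) (b₀ b₁ : K) :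
    (views k H C b₀ b₁).ncard ≤ H.card.factorial * @Fintype.card C.Gate C.fin := by
  classical
  let _ := C.fin
  have h1 : views k H C b₀ b₁ ⊆ Set.range
      (fun (p : {σ : Equiv.Perm (Fin n) // ∀ u, ¬ u ∈ H → σ u = u} × C.Gate)
        (F : Fam n k) => view C p.2 (inpF b₀ b₁ (im p.1.1 '' F.1))) := by
    rintro L ⟨g, σ, hσ, rfl⟩
    exact ⟨(⟨σ, hσ⟩, g), rfl⟩
  refine (Set.ncard_le_ncard h1 (Set.finite_range _)).trans ?_
  have h2 : H.card.factorial = Nat.card {σ : Equiv.Perm (Fin n) // ∀ u, ¬ u ∈ H → σ u = u} := by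
    rw [← Nat.card_congr (Equiv.Perm.subtypeEquivSubtypePerm (fun u => u ∈ H)),
      Nat.card_eq_fintype_card, Fintype.card_perm, Fintype.card_coe]
  rw [← Nat.card_coe_set_eq, ← Nat.card_eq_fintype_card, h2, ← Nat.card_prod]
  exact Nat.card_le_card_of_surjective (Set.rangeFactorization _)
    Set.rangeFactorization_surjective

end Pool.Agent.T9h47.SZ
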